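import Mathlib

/-!
MP_202a65_gt: definitions used by the statement of the result: the universal Menger compactum
(literal construction of the problem file), Menger manifolds, and the complete invariance
property with respect to homeomorphisms.
-/

open Set Topology

namespace M202

/-- the n-skeleton of the cube I^N -/
def skelI (n N : ℕ) : Set (Fin N → ℝ) :=
  {x | (∀ i, 0 ≤ x i ∧ x i ≤ 1) ∧ {i | x i ≠ 0 ∧ x i ≠ 1}.ncard ≤ n}

/-- the closed subcube of side 1/3 of I^N with digits d -/
def subcube {N : ℕ} (d : Fin N → Fin 3) : Set (Fin N → ℝ) :=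
  {x | ∀ i, ((d i : ℕ) : ℝ) / 3 ≤ x i ∧ x i ≤ (((d i : ℕ) : ℝ) + 1) / 3}

/-- the stages I(n,b) of the construction of mu^n in I^(2n+1) (stage 0 is the whole cube): the
subcubes which meet the n-skeleton are kept, and the construction is repeated inside every kept
subcube -/
def stage (n : ℕ) : ℕ → Set (Fin (2 * n + 1) → ℝ)
  | 0 => {x | ∀ i, 0 ≤ x i ∧ x i ≤ 1}
  | b + 1 => {x | ∃ d : Fin (2 * n + 1) → Fin 3,
      (subcube d ∩ skelI n (2 * n + 1)).Nonempty ∧ (fun i => 3 * x i - ((d i : ℕ) : ℝ)) ∈ stage n b}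

/-- the universal Menger compactum mu^n -/
def Menger (n : ℕ) : Set (Fin (2 * n + 1) → ℝ) := ⋂ b, stage n b

/-- every point of X has a neighbourhood homeomorphic to mu^n -/
def IsMengerManifold (n : ℕ) (X : Type*) [TopologicalSpace X] : Prop :=
  ∀ x : X, ∃ N ∈ 𝓝 x, Nonempty (↥N ≃ₜ ↥(Menger n))

/-- complete invariance property with respect to homeomorphisms -/
def HasCIPH (X : Type*) [TopologicalSpace X] : Prop :=
  ∀ A : Set X, IsClosed A → A.Nonempty → ∃ h : X ≃ₜ X, {x | h x = x} = A

end M202
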