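import Pool.Agent.Work.MP_202a65_gt.Bd.B01
import Pool.Agent.Work.MP_202a65_gt.Bd.B04
import Pool.Agent.Work.MP_202a65_gt.Bd.B05
import Pool.Agent.Work.MP_202a65_gt.Bd.B06
import Pool.Agent.Work.MP_202a65_gt.Bd.B02
import Pool.Agent.Work.MP_202a65_gt.Bd.B03
import Pool.Agent.Work.MP_202a65_gt.Bd.B07

/-!
MP_202a65_gt: assembly of the items.
-/

namespace M202

theorem all_Hep : S_Hep := pr_Hep
theorem all_HepMap : S_HepMap := pr_HepMap all_Hep
theorem all_TrackFix : S_TrackFix := pr_TrackFix all_HepMap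
theorem all_SoftOfRel : S_SoftOfRel := pr_SoftOfRel all_HepMap all_TrackFix
theorem all_TL : S_TL := pr_TL all_HepMap all_TrackFix
theorem all_ASDR : S_ASDR := pr_ASDR all_SoftOfRel all_TL
theorem all_AdjDesc : S_AdjDesc := pr_AdjDesc
theorem all_AdjEx : S_AdjEx := pr_AdjEx
theorem all_AdjSplit : S_AdjSplit := pr_AdjSplit all_AdjEx all_AdjDesc
theorem all_AsmLimit.{u} : S_AsmLimit.{u} := pr_AsmLimit.{u}
theorem all_CE : S_CE := pr_CE
theorem all_Grid : S_Grid := pr_Grid
theorem all_CubRC : S_CubRC := pr_CubRC all_Grid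
theorem all_Comp : S_Comp := pr_Comp all_SoftOfRel
theorem all_Pert : S_Pert := pr_Pert all_SoftOfRel all_TL all_TrackFix
theorem all_SDR : S_SDR := pr_SDR all_ASDR
theorem all_UC : S_UC := pr_UC
theorem all_Cancel : S_Cancel := pr_Cancel all_SoftOfRel all_TL all_CE all_CubRC all_Grid
theorem all_SupCPM : S_SupCPM := pr_SupCPM
theorem all_ProdId : S_ProdId := pr_ProdId all_SupCPM all_SoftOfRel
theorem all_Basics : S_Basics := pr_Basics all_Comp all_Cancel all_SoftOfRel all_ProdId all_SupCPM all_UC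
theorem all_PO : S_PO := pr_PO all_CE all_CubRC all_Grid all_Comp all_Pert all_SDR all_SoftOfRel all_AdjDesc all_UC all_Basics
theorem all_POmap : S_POmap := pr_POmap all_AdjDesc
theorem all_F2 : S_F2 := pr_F2 all_PO all_POmap all_AdjEx all_AdjDesc all_Comp all_Basics all_UC
theorem all_BLift : S_BLift := pr_BLift all_CE all_CubRC all_Grid
theorem all_F1 : S_F1 := pr_F1 all_Comp all_Basics all_UC
theorem all_F3fam : S_F3fam := pr_F3fam all_F2 all_AdjSplit all_BLift all_AdjDesc all_F1 all_Basics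
theorem all_LensCollapse : S_LensCollapse := pr_LensCollapse all_ASDR all_Basics all_AdjDesc all_UC
theorem all_F4fam : S_F4fam := pr_F4fam all_F2 all_LensCollapse all_AdjSplit all_BLift all_AdjDesc all_AdjEx all_F1 all_Basics
theorem all_V : S_V := pr_V
theorem all_F5a : S_F5a := pr_F5a all_F3fam all_F4fam all_V all_AdjDesc all_Basics
theorem all_F5 : S_F5 := pr_F5 all_F5a all_AdjEx all_AdjDesc all_SDR all_F1 all_Basics
theorem all_AttAdj : S_AttAdj := pr_AttAdj
theorem all_GP1 : S_GP1 := pr_GP1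
theorem all_Push : S_Push := pr_Push all_GP1
theorem all_DimH : S_DimH := pr_DimH
theorem all_SoftExt : S_SoftExt := pr_SoftExt all_Push all_DimH all_TL all_SoftOfRel all_UC
theorem all_RCAppend : S_RCAppend := pr_RCAppend
theorem all_Tn : S_Tn := pr_Tn all_F5 all_AttAdj all_SoftExt all_Basics all_RCAppend all_F1 all_UC
theorem all_F6fam : S_F6fam := pr_F6fam all_F2 all_AdjSplit all_BLift all_AdjDesc all_F1 all_Basics
theorem all_HomeoComp : S_HomeoComp := pr_HomeoComp
theorem all_SphCollapse : S_SphCollapse := pr_SphCollapse all_GP1 all_DimH all_Basics all_HomeoComp all_AdjDesc all_UC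
theorem all_F6 : S_F6 := pr_F6 all_F6fam all_SphCollapse all_AdjEx all_AdjDesc all_F1 all_Basics
theorem all_Tn1 : S_Tn1 := pr_Tn1 all_F6 all_AttAdj all_SoftExt all_Basics all_RCAppend all_F1 all_UC
theorem all_RCUnion : S_RCUnion := pr_RCUnion
theorem all_Ttrade : S_Ttrade := pr_Ttrade all_F4fam all_F1 all_AdjEx all_AdjDesc all_SDR all_RCUnion all_RCAppend all_Pert all_Comp all_Basics all_UC all_AttAdj
theorem all_T : S_T := pr_T all_Tn all_Tn1 all_Ttrade all_F1 all_Basics
theorem all_Lev : S_Lev := pr_Lev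
theorem all_Med : S_Med := pr_Med
theorem all_MbFacts : S_MbFacts := pr_MbFacts all_Lev all_Med all_Grid
theorem all_Radm : S_Radm := pr_Radm all_Lev all_Med all_MbFacts
theorem all_SqzPz : S_SqzPz := pr_SqzPz all_Lev all_Med all_MbFacts all_Radm all_Grid
theorem all_SgFacts : S_SgFacts := pr_SgFacts all_SqzPz all_MbFacts all_Grid
theorem all_Omega : S_Omega := pr_Omega all_Lev
theorem all_GP2 : S_GP2 := pr_GP2
theorem all_GPM : S_GPM := pr_GPM all_Omega all_GP2 all_DimH all_Basics all_UC
theorem all_X1 : S_X1 := pr_X1 all_GPM all_SqzPz all_Radm all_MbFacts all_Basics all_HomeoComp all_SgFacts all_Lev all_UC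
theorem all_X1all : S_X1all := pr_X1all all_X1 all_SgFacts all_Basics
theorem all_Psi : S_Psi := pr_Psi all_SDR all_ASDR all_Basics all_AdjDesc all_UC all_MbFacts all_SgFacts
theorem all_U1 : S_U1 := pr_U1 all_GPM all_Radm all_MbFacts all_Cancel all_SoftOfRel all_Basics all_UC all_Lev all_Med all_Grid
theorem all_X2 : S_X2 := pr_X2 all_U1 all_X1all all_ProdId all_SupCPM all_Comp all_SgFacts all_UC all_Basics all_HomeoComp all_MbFacts
theorem all_TcylM : S_TcylM := pr_TcylM all_Psi all_X2 all_Omega all_PO all_POmap all_AdjEx all_AdjDesc all_Comp all_Basics all_SgFacts all_UC all_HomeoComp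
theorem all_SkelPush : S_SkelPush := pr_SkelPush all_Push all_CubRC all_Grid
theorem all_Zminus : S_Zminus := pr_Zminus all_SkelPush all_MbFacts all_SoftOfRel all_SgFacts all_DimH all_Grid
theorem all_X5 : S_X5 := pr_X5 all_Radm all_SqzPz all_MbFacts all_SgFacts all_SDR all_Lev all_Grid
theorem all_Near : S_Near := pr_Near all_Omega
theorem all_TsphM : S_TsphM := pr_TsphM all_Zminus all_PO all_X1all all_X5 all_MbFacts all_SgFacts all_Near all_Comp all_Basics all_UC all_AdjDesc all_Grid all_HomeoComp all_POmap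
theorem all_TowerM : S_TowerM := pr_TowerM all_SgFacts all_X1all all_TcylM all_TsphM
theorem all_RCRestrict : S_RCRestrict := pr_RCRestrict
theorem all_Ext : S_Ext := pr_Ext all_GP1 all_DimH
theorem all_X6 : S_X6 := pr_X6 all_SkelPush all_MbFacts all_SoftOfRel all_SgFacts all_DimH all_Grid
theorem all_P : S_P := pr_P all_T all_TowerM all_CubRC all_Grid all_RCRestrict all_SkelPush all_Ext all_X6 all_X1all all_X5 all_Comp all_Basics all_SgFacts all_MbFacts all_UC all_SoftOfRel all_ProdId all_SupCPM all_DimH all_HomeoComp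
theorem all_E2a : S_E2a := pr_E2a all_CE all_CubRC all_Grid all_RCRestrict all_X6 all_X1all all_Comp all_SgFacts all_MbFacts all_Basics all_UC
theorem all_CylRC : S_CylRC := pr_CylRC all_RCUnion all_AdjDesc
theorem all_HepRC : S_HepRC := pr_HepRC all_CE all_Basics
theorem all_E2b : S_E2b := pr_E2b all_AdjEx all_AdjDesc all_CylRC all_HepRC all_SDR all_Pert all_Comp all_Basics all_UC all_RCAppend
theorem all_E2 : S_E2 := pr_E2 all_E2a all_E2b all_T all_CylRC all_TowerM all_X1all all_X5 all_Comp all_Basics all_SgFacts all_MbFacts all_RCAppend all_HomeoComp all_UC all_Grid all_SqzPz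
theorem all_E : S_E := pr_E all_E2 all_X6 all_X1all all_X5 all_Radm all_SgFacts all_MbFacts all_SqzPz all_Comp all_Basics all_UC all_Grid
theorem all_InvLim : S_InvLim := pr_InvLim all_Basics all_UC all_SoftOfRel
theorem all_SiFacts : S_SiFacts := pr_SiFacts all_SgFacts all_MbFacts all_X1all all_InvLim all_Grid
theorem all_PinEx : S_PinEx := pr_PinEx all_SgFacts all_SiFacts all_MbFacts
theorem all_PPhi : S_PPhi := pr_PPhi all_CE all_CubRC all_Grid all_SiFacts all_Near all_Comp all_Basics all_UC all_SgFacts all_PinEx all_HomeoComp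
theorem all_ExtOpen : S_ExtOpen := pr_ExtOpen all_Ext
theorem all_PPlo : S_PPlo := pr_PPlo all_CE all_CubRC all_Grid all_SiFacts all_ExtOpen all_Basics all_UC all_SgFacts all_PinEx
theorem all_PPSoft : S_PPSoft := pr_PPSoft all_PPhi all_PPlo all_Grid all_SoftOfRel all_UC all_PinEx all_MbFacts all_SiFacts
theorem all_PExt : S_PExt := pr_PExt all_SkelPush all_SiFacts all_SgFacts all_MbFacts all_Near all_Pert all_Grid all_UC all_SoftOfRel all_Basics all_DimH all_PinEx all_SqzPz
theorem all_Pinch : S_Pinch := pr_Pinch all_Ext all_ExtOpen all_Basics all_UC all_PinEx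
theorem all_Init : S_Init := pr_Init all_P all_E all_PPSoft all_PExt all_Pinch all_PinEx all_Near all_X1all all_Comp all_Basics all_UC all_SgFacts all_SiFacts all_MbFacts all_SqzPz all_Grid all_ProdId all_SupCPM
theorem all_Step : S_Step := pr_Step all_E all_Near all_X6 all_X1all all_Comp all_Basics all_SgFacts all_UC all_MbFacts all_SqzPz all_Grid
theorem all_Mio : S_Mio := pr_Mio all_SiFacts all_SgFacts
theorem all_Zig : S_Zig := pr_Zig all_Step all_Mio all_SgFacts all_SiFacts all_UC
theorem all_Core : S_Core := pr_Core all_Init all_Zig all_SiFacts all_SgFacts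
theorem all_AsmStep.{u} : S_AsmStep.{u} := pr_AsmStep.{u} all_Core
theorem all_Bridge : S_Bridge := pr_Bridge all_Lev all_MbFacts
theorem all_Charts.{u} : S_Charts.{u} := pr_Charts.{u} all_Bridge
theorem all_Gauge.{u} : S_Gauge.{u} := pr_Gauge.{u}
theorem all_LocFin.{u} : S_LocFin.{u} := pr_LocFin.{u}
theorem all_SoftMod : S_SoftMod := pr_SoftMod all_SoftOfRel
theorem all_Target.{u} : S_Target.{u} := pr_Target.{u} all_Charts all_AsmStep all_LocFin all_Gauge all_AsmLimit

end M202
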